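import Pool.Agent.H89.FM.Defs

/-!
# The fourth moment of the class group `L`-functions of all imaginary quadratic fields: part 3

From the second moment of the twisted sums over forms (`Pool.Agent.H89.FM.T_TM`) to the theorem.
-/

set_option autoImplicit false

open MeasureTheory Set Filter NumberField
open scoped Real nonZeroDivisors

namespace Pool.Agent.H61.FM

open Pool.Agent.H31.CN Pool.Agent.H89.FM

/-! ### Definitions -/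

/-- the class group characters -/
abbrev CC (K : Type) [Field K] [NumberField K] : Type := ClassGroup (𝓞 K) →* ℂˣ

noncomputable instance (K : Type) [Field K] [NumberField K] : Fintype (CC K) := Fintype.ofFinite _

/-- `K` is an imaginary quadratic field of discriminant `-D` -/
structure IQ (K : Type) [Field K] [NumberField K] (D : ℕ) : Prop where
  pos : 0 < D
  rk : Module.finrank ℚ K = 2
  dis : discr K = -(D : ℤ)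

/-- the norm of an ideal -/
noncomputable def nm {K : Type} [Field K] [NumberField K] (I : (Ideal (𝓞 K))⁰) : ℕ :=
  Ideal.absNorm (I : Ideal (𝓞 K))

/-- the value of a character at an ideal -/
noncomputable def pv {K : Type} [Field K] [NumberField K] (ψ : CC K) (I : (Ideal (𝓞 K))⁰) : ℂ :=
  ((ψ (ClassGroup.mk0 I) : ℂˣ) : ℂ)

theorem finite_nm (K : Type) [Field K] [NumberField K] (n : ℕ) :
    {I : (Ideal (𝓞 K))⁰ | nm I = n}.Finite := by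
  have h := Ideal.finite_setOfPred_absNorm_eq (S := 𝓞 K) n
  exact h.preimage (Subtype.val_injective.injOn)

/-- the ideals of norm `n` -/
noncomputable def Nn (K : Type) [Field K] [NumberField K] (n : ℕ) : Finset (Ideal (𝓞 K))⁰ :=
  (finite_nm K n).toFinset

theorem mem_Nn {K : Type} [Field K] [NumberField K] {n : ℕ} {I : (Ideal (𝓞 K))⁰} :
    I ∈ Nn K n ↔ nm I = n := by
  unfold Nn
  rw [Set.Finite.mem_toFinset, Set.mem_ofPred_eq]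

/-- the coefficients of the `L`-function -/
noncomputable def lm {K : Type} [Field K] [NumberField K] (ψ : CC K) (n : ℕ) : ℂ :=
  ∑ I ∈ Nn K n, pv ψ I

/-- the partial sums of the coefficients -/
noncomputable def Sp {K : Type} [Field K] [NumberField K] (ψ : CC K) (x : ℝ) : ℂ :=
  ∑ n ∈ Finset.Icc 1 ⌊x⌋₊, lm ψ n

/-- the number of the units -/
noncomputable def un (K : Type) [Field K] [NumberField K] : ℕ := Nat.card (𝓞 K)ˣ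

/-- the factor of the completed `L`-function -/
noncomputable def gG (s : ℂ) : ℂ :=
  s * (s - 1) * Complex.Gamma s * (2 * (π : ℂ)) ^ (-s)

/-- the vectors of the ideal `J` in terms of the numbers `α`, `β` -/
def lt (K : Type) [Field K] [NumberField K] (α β : 𝓞 K) (J : Ideal (𝓞 K)) : AddSubgroup (ℤ × ℤ) where
  carrier := {v | (v.1 : 𝓞 K) * α + (v.2 : 𝓞 K) * β ∈ J}
  zero_mem' := by simp
  add_mem' := by
    intro v w hv hw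
    have h := J.add_mem hv hw
    have e : (((v + w : ℤ × ℤ).1 : ℤ) : 𝓞 K) * α + (((v + w : ℤ × ℤ).2 : ℤ) : 𝓞 K) * β =
        ((v.1 : 𝓞 K) * α + (v.2 : 𝓞 K) * β) + ((w.1 : 𝓞 K) * α + (w.2 : 𝓞 K) * β) := by
      rw [Prod.fst_add, Prod.snd_add]
      push_cast
      ring
    change (((v + w : ℤ × ℤ).1 : ℤ) : 𝓞 K) * α + (((v + w : ℤ × ℤ).2 : ℤ) : 𝓞 K) * β ∈ J
    rw [e]
    exact h
  neg_mem' := by
    intro v hv
    have h := J.neg_mem hv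
    have e : (((-v : ℤ × ℤ).1 : ℤ) : 𝓞 K) * α + (((-v : ℤ × ℤ).2 : ℤ) : 𝓞 K) * β =
        -((v.1 : 𝓞 K) * α + (v.2 : 𝓞 K) * β) := by
      rw [Prod.fst_neg, Prod.snd_neg]
      push_cast
      ring
    change (((-v : ℤ × ℤ).1 : ℤ) : 𝓞 K) * α + (((-v : ℤ × ℤ).2 : ℤ) : 𝓞 K) * β ∈ J
    rw [e]
    exact h

/-- representatives of the ideal classes, with oriented bases and their forms -/
structure RS (K : Type) [Field K] [NumberField K] (D : ℕ) where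
  σ : K →+* ℂ
  I : ClassGroup (𝓞 K) → (Ideal (𝓞 K))⁰
  α : ClassGroup (𝓞 K) → 𝓞 K
  β : ClassGroup (𝓞 K) → 𝓞 K
  Q : ClassGroup (𝓞 K) → QF
  cl : ∀ c, ClassGroup.mk0 (I c) = c
  fd : ∀ c, Q c ∈ FD D
  ob : ∀ c, OB K σ (I c) (α c) (β c) (Q c)

/-- the numbers all of whose prime factors occur at least twice -/
def Full (b : ℕ) : Prop := ∀ p : ℕ, p.Prime → p ∣ b → p ^ 2 ∣ b

/-! ### What part 2 provides -/

/-- (EZA) the completed Epstein zeta function: holomorphy, and the series -/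
def T_EZA : Prop :=
  ∀ (n : ℕ) (L : AddSubgroup (ℤ × ℤ)) (x y : ℝ), 1 ≤ n → L.index = n → 0 < y →
    (Differentiable ℂ fun s : ℂ => Ez s n L x y) ∧
    ∀ s : ℂ, 1 < s.re → ∃ a : ℂ, HasSum (fun v : ℤ × ℤ => open Classical in
      if v ∈ L ∧ v ≠ 0 then (((qz x y v / n : ℝ)) : ℂ) ^ (-s) else 0) a ∧
      Ez s n L x y = gG s * a

/-- (EZR) the completed Epstein zeta function: the rotated series -/
def T_EZR : Prop :=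
  ∀ (τ s : ℂ) (x y : ℝ), ‖τ‖ = 1 → 0 < τ.re → 0 < y →
    HasSum (fun v : ℤ × ℤ => if v = 0 then 0 else Kk τ s (qz x y v)) (Ez s 1 ⊤ x y)

/-! ### Ideals and lattices -/

/-- (OBG) every ideal has an oriented basis. -/
def T_OBG : Prop :=
  ∀ (K : Type) [Field K] [NumberField K] (D : ℕ) (σ : K →+* ℂ), IQ K D →
    ∀ I : Ideal (𝓞 K), I ≠ ⊥ → ∃ (α β : 𝓞 K) (Q : QF), Q ∈ FD D ∧ OB K σ I α β Q

/-- (RSX) representatives exist. -/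
def T_RSX : Prop :=
  ∀ (K : Type) [Field K] [NumberField K] (D : ℕ), IQ K D → Nonempty (RS K D)

/-- (VIG) the vectors of an ideal and the integral ideals of the inverse class. -/
def T_VIG : Prop :=
  ∀ (K : Type) [Field K] [NumberField K] (D : ℕ) (σ : K →+* ℂ), IQ K D →
    ∀ (I : (Ideal (𝓞 K))⁰) (α β : 𝓞 K) (Q : QF), OB K σ I α β Q →
    0 < un K ∧ ∃ b : ℤ × ℤ → (Ideal (𝓞 K))⁰,
      (∀ v, v ≠ 0 → Ideal.span {(v.1 : 𝓞 K) * α + (v.2 : 𝓞 K) * β} =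
        (b v : Ideal (𝓞 K)) * I) ∧
      (∀ v, v ≠ 0 → ClassGroup.mk0 (b v) = (ClassGroup.mk0 I)⁻¹ ∧ (nm (b v) : ℤ) = val Q v) ∧
      (∀ J : (Ideal (𝓞 K))⁰, ClassGroup.mk0 J = (ClassGroup.mk0 I)⁻¹ → ∃ v, v ≠ 0 ∧ b v = J) ∧
      (∀ v, v ≠ 0 → {v' : ℤ × ℤ | v' ≠ 0 ∧ b v' = b v}.ncard = un K)

open Classical in
/-- (TWS) sums over the vectors of a product of ideals are sums over the ideals of a class. -/
def T_TWS : Prop :=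
  ∀ (K : Type) [Field K] [NumberField K] (D : ℕ) (σ : K →+* ℂ), IQ K D →
    ∀ (I P : (Ideal (𝓞 K))⁰) (α β : 𝓞 K) (Q : QF), OB K σ I α β Q →
    ∀ (f : ℝ → ℂ) (a : ℂ),
      HasSum (fun v : ℤ × ℤ => if v ∈ lt K α β ((P : Ideal (𝓞 K)) * I) ∧ v ≠ 0 then
        f ((val Q v : ℝ) / nm P) else 0) a →
      HasSum (fun J : (Ideal (𝓞 K))⁰ =>
        if ClassGroup.mk0 J = (ClassGroup.mk0 I * ClassGroup.mk0 P)⁻¹ then f (nm J) else 0)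
        (a / un K)

/-- (LIN) the lattices of the multiples of an ideal. -/
def T_LIN : Prop :=
  ∀ (K : Type) [Field K] [NumberField K] (D : ℕ) (σ : K →+* ℂ), IQ K D →
    ∀ (I P : (Ideal (𝓞 K))⁰) (α β : 𝓞 K) (Q : QF), OB K σ I α β Q →
    (lt K α β ((P : Ideal (𝓞 K)) * I)).index = nm P ∧
    Dv (nm P) (lt K α β ((P : Ideal (𝓞 K)) * I)) Q ∧
    ∀ P' : (Ideal (𝓞 K))⁰, lt K α β ((P' : Ideal (𝓞 K)) * I) = lt K α β ((P : Ideal (𝓞 K)) * I) →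
      P' = P

/-- (LSU) every lattice of squarefree index `n` on which the form is divisible by `n` belongs to
an ideal. -/
def T_LSU : Prop :=
  ∀ (K : Type) [Field K] [NumberField K] (D : ℕ) (σ : K →+* ℂ), IQ K D →
    ∀ (I : (Ideal (𝓞 K))⁰) (α β : 𝓞 K) (Q : QF), OB K σ I α β Q →
    ∀ (n : ℕ) (L : AddSubgroup (ℤ × ℤ)), Squarefree n → L.index = n → Dv n L Q →
      ∃ P : (Ideal (𝓞 K))⁰, nm P = n ∧ lt K α β ((P : Ideal (𝓞 K)) * I) = L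

/-- (QZV) the metric of the root of a form. -/
def T_QZV : Prop :=
  ∀ (Q : QF) (v : ℤ × ℤ), 0 < Q.1 → 0 < dsc Q →
    0 < zy Q ∧ qz (zx Q) (zy Q) v = (val Q v : ℝ) / Real.sqrt (dsc Q)

/-! ### The `L`-functions and the Epstein zeta functions -/

open Classical in
/-- (LF1) the twisted `L`-function in terms of the forms, `Re s > 1`. -/
def T_LF1 : Prop :=
  ∀ (K : Type) [Field K] [NumberField K] (D : ℕ), IQ K D → ∀ (R : RS K D) (ψ : CC K) (F : ℂ → ℂ),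
    IsLf K ψ F → ∀ n : ℕ, Squarefree n → ∀ s : ℂ, 1 < s.re →
      lm ψ n * (gG s * (D : ℂ) ^ (s / 2) * F s) = (un K : ℂ)⁻¹ * ∑ c, (((ψ c)⁻¹ : ℂˣ) : ℂ) *
        ∑ L ∈ (Ls n).filter (fun L => Dv n L (R.Q c)), Ez s n L (zx (R.Q c)) (zy (R.Q c))

open Classical in
/-- (LF2) the twisted `L`-function in terms of the forms. -/
def T_LF2 : Prop :=
  ∀ (K : Type) [Field K] [NumberField K] (D : ℕ), IQ K D → ∀ (R : RS K D) (ψ : CC K) (F : ℂ → ℂ),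
    IsLf K ψ F → ∀ n : ℕ, Squarefree n → ∀ s : ℂ, 0 < s.re → s ≠ 1 →
      lm ψ n * (gG s * (D : ℂ) ^ (s / 2) * F s) = (un K : ℂ)⁻¹ * ∑ c, (((ψ c)⁻¹ : ℂˣ) : ℂ) *
        ∑ L ∈ (Ls n).filter (fun L => Dv n L (R.Q c)), Ez s n L (zx (R.Q c)) (zy (R.Q c))

/-- (EXL) the `L`-functions exist. -/
def T_EXL : Prop :=
  ∀ (K : Type) [Field K] [NumberField K] (D : ℕ), IQ K D → ∀ ψ : CC K, ∃ F : ℂ → ℂ, IsLf K ψ F

/-- (LFK) the `L`-function as a rapidly convergent series. -/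
def T_LFK : Prop :=
  ∀ (K : Type) [Field K] [NumberField K] (D : ℕ), IQ K D → ∀ (ψ : CC K) (F : ℂ → ℂ),
    IsLf K ψ F → ∀ τ s : ℂ, ‖τ‖ = 1 → 0 < τ.re → 0 < s.re → s ≠ 1 →
      HasSum (fun J : (Ideal (𝓞 K))⁰ => pv ψ J * Kk τ s ((nm J : ℝ) / Real.sqrt D))
        (gG s * (D : ℂ) ^ (s / 2) * F s)

/-! ### Groups, class numbers, the Gamma function -/

/-- (PVL) Parseval's identity for a finite abelian group. -/
def T_PVL : Prop :=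
  ∀ (G : Type) [CommGroup G] [Fintype G] [Fintype (G →* ℂˣ)] (z : G → ℂ),
    ∑ ψ : G →* ℂˣ, ‖∑ g, (((ψ g)⁻¹ : ℂˣ) : ℂ) * z g‖ ^ 2 = Fintype.card G * ∑ g, ‖z g‖ ^ 2

/-- (HBD) the class number. -/
def T_HBD : Prop :=
  ∀ ε : ℝ, 0 < ε → ∃ C : ℝ, 0 < C ∧ ∀ (K : Type) [Field K] [NumberField K] (D : ℕ), IQ K D →
    (Fintype.card (ClassGroup (𝓞 K)) : ℝ) ≤ C * (D : ℝ) ^ (1 / 2 + ε) ∧
    (Fintype.card (CC K) : ℝ) ≤ C * (D : ℝ) ^ (1 / 2 + ε)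

/-- (GML) the lower bound for the Gamma factor. -/
def T_GML : Prop :=
  ∃ (C : ℝ) (k : ℕ), 0 < C ∧ ∀ s : ℂ, |s.re - 1 / 2| ≤ 1 / 8 →
    Real.exp (-(π * |s.im| / 2)) ≤ C * (1 + |s.im|) ^ k * ‖gG s‖

/-- (INE) the forms of different classes are not equivalent. -/
def T_INE : Prop :=
  (∀ (K : Type) [Field K] [NumberField K] (D : ℕ) (R : RS K D) (c c' : ClassGroup (𝓞 K))
    (g : Matrix.SpecialLinearGroup (Fin 2) ℤ), act (R.Q c) g = R.Q c' → c = c') ∧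
  ∀ (D D' : ℕ) (Q Q' : QF) (g : Matrix.SpecialLinearGroup (Fin 2) ℤ), Q ∈ FD D → Q' ∈ FD D' →
    act Q g = Q' → D = D'

/-- (PVF) the twisted second moment for one field. -/
def T_PVF : Prop :=
  ∀ (K : Type) [Field K] [NumberField K] (D : ℕ), IQ K D → ∀ (R : RS K D) (F : CC K → ℂ → ℂ),
    (∀ ψ, IsLf K ψ (F ψ)) → ∀ (s : ℂ) (N : ℕ) (α : ℕ → ℂ), |s.re - 1 / 2| ≤ 1 / 8 →
    ∑ ψ : CC K, ‖∑ n ∈ Sq N, α n * lm ψ n‖ ^ 2 * ‖F ψ s‖ ^ 2 * (‖gG s‖ ^ 2 * (D : ℝ) ^ s.re) ≤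
      Fintype.card (ClassGroup (𝓞 K)) * ∑ c, ‖Bf s α N (R.Q c)‖ ^ 2

/-- the condition on a family of imaginary quadratic fields and their `L`-functions, with
discriminants in `[a, b]` -/
def Fml (K : ℕ → Type) [∀ D, Field (K D)] [∀ D, NumberField (K D)] (S : Finset ℕ)
    (F : ∀ D, CC (K D) → ℂ → ℂ) (a b : ℝ) : Prop :=
  ∀ D ∈ S, a ≤ (D : ℝ) ∧ (D : ℝ) ≤ b ∧ IQ (K D) D ∧ ∀ ψ, IsLf (K D) ψ (F D ψ)

/-- (TMF) the twisted second moment of the `L`-functions. -/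
def T_TMF : Prop :=
  ∀ ε : ℝ, 0 < ε → ∃ κ : ℝ, 0 < κ ∧ κ ≤ 1 / 8 ∧ ∃ δ : ℝ, 0 < δ ∧ ∃ (C : ℝ) (k : ℕ), 0 < C ∧
    ∀ (s : ℂ) (X : ℝ) (N : ℕ) (α : ℕ → ℂ) (K : ℕ → Type) [∀ D, Field (K D)]
      [∀ D, NumberField (K D)] (S : Finset ℕ) (F : ∀ D, CC (K D) → ℂ → ℂ),
      |s.re - 1 / 2| ≤ κ → 1 ≤ X → 1 ≤ N → (N : ℝ) ≤ X ^ ((1 + δ) / 2) → (∀ n, ‖α n‖ ≤ 1) →
      Fml K S F (X / 4) X →
      ∑ D ∈ S, ∑ ψ : CC (K D), ‖∑ n ∈ Sq N, α n * lm ψ n‖ ^ 2 * ‖F D ψ s‖ ^ 2 ≤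
        C * (1 + |s.im|) ^ k * X ^ (3 / 2 + ε) * N

/-! ### The coefficients -/

/-- (DVB) the coefficients are small. -/
def T_DVB : Prop :=
  ∀ ε : ℝ, 0 < ε → ∃ C : ℝ, 0 < C ∧ ∀ (K : Type) [Field K] [NumberField K] (D : ℕ), IQ K D →
    ∀ (ψ : CC K) (n : ℕ), 1 ≤ n → ‖lm ψ n‖ ≤ C * (n : ℝ) ^ ε

/-- (MUL) the coefficients are multiplicative. -/
def T_MUL : Prop :=
  ∀ (K : Type) [Field K] [NumberField K] (ψ : CC K), lm ψ 1 = 1 ∧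
    ∀ m n : ℕ, m.Coprime n → lm ψ (m * n) = lm ψ m * lm ψ n

open Classical in
/-- (SQD) the decomposition of numbers into a squarefull and a squarefree number. -/
def T_SQD : Prop :=
  ∀ (a : ℕ → ℂ), (∀ m n : ℕ, m.Coprime n → a (m * n) = a m * a n) → ∀ N : ℕ,
    ∑ n ∈ Finset.Icc 1 N, a n = ∑ b ∈ (Finset.Icc 1 N).filter Full,
      a b * ∑ m ∈ Sq (N / b), if m.Coprime b then a m else 0

open Classical in
/-- (SFS) the sum of `b ^ (-1/2)` over the squarefull numbers. -/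
def T_SFS : Prop :=
  ∃ C : ℝ, 0 < C ∧ ∀ N : ℕ, 1 ≤ N →
    ∑ b ∈ (Finset.Icc 1 N).filter Full, (b : ℝ) ^ (-(1 / 2) : ℝ) ≤ C * (1 + Real.log N)

/-- (MOS) the second moment with partial sums of the coefficients. -/
def T_MOS : Prop :=
  ∀ ε : ℝ, 0 < ε → ∃ κ : ℝ, 0 < κ ∧ κ ≤ 1 / 8 ∧ ∃ δ : ℝ, 0 < δ ∧ δ ≤ 1 ∧
    ∃ (C : ℝ) (k : ℕ), 0 < C ∧
    ∀ (s : ℂ) (X x : ℝ) (K : ℕ → Type) [∀ D, Field (K D)] [∀ D, NumberField (K D)]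
      (S : Finset ℕ) (F : ∀ D, CC (K D) → ℂ → ℂ),
      |s.re - 1 / 2| ≤ κ → 1 ≤ X → 1 ≤ x → x ≤ X ^ ((1 + δ) / 2) → Fml K S F (X / 4) X →
      ∑ D ∈ S, ∑ ψ : CC (K D), ‖Sp ψ x‖ ^ 2 * ‖F D ψ s‖ ^ 2 ≤
        C * (1 + |s.im|) ^ k * X ^ (3 / 2 + ε) * x ^ (1 + ε)

/-! ### Bounds for one `L`-function -/

/-- one half of the kernel -/
noncomputable def kf (τ s : ℂ) (r : ℝ) : ℂ :=
  ∫ u in Ioi (1 : ℝ), phc (τ * u * r) * (τ * u) ^ s / u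

/-- (KR1) bounds for one half of the kernel. -/
def T_KR1 : Prop :=
  ∃ (C : ℝ) (k : ℕ), 0 < C ∧ ∀ (τ s : ℂ) (T : ℝ), ‖τ‖ = 1 → 1 ≤ T → 1 ≤ T * τ.re →
    |s.re - 1 / 2| ≤ 1 / 8 → ∀ r : ℝ, 0 < r →
    IntegrableOn (fun u : ℝ => phc (τ * u * r) * (τ * u) ^ s / u) (Ioi 1) ∧
    ‖kf τ s r‖ ≤ C * T ^ k * ‖τ ^ s‖ * r ^ (-s.re) * Real.exp (-(r / T)) ∧
    HasDerivAt (kf τ s) (-(s * kf τ s r + phc (τ * r) * τ ^ s) / r) r ∧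
    ‖phc (τ * r)‖ ≤ C * T ^ k * r ^ (-s.re) * Real.exp (-(r / T))

/-- (KRB) bounds for the kernel. -/
def T_KRB : Prop :=
  ∃ (C : ℝ) (k : ℕ) (c : ℝ), 0 < C ∧ 0 < c ∧ ∀ s : ℂ, |s.re - 1 / 2| ≤ 1 / 8 →
    ∃ τ : ℂ, ‖τ‖ = 1 ∧ 0 < τ.re ∧ ContinuousOn (deriv (Kk τ s)) (Ioi 0) ∧
      ∀ r : ℝ, 0 < r → DifferentiableAt ℝ (Kk τ s) r ∧
        ‖Kk τ s r‖ ≤ C * (1 + |s.im|) ^ k * Real.exp (-(π * |s.im| / 2)) *
          (r ^ (-s.re) + r ^ (s.re - 1)) * Real.exp (-(c * r / (1 + |s.im|))) ∧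
        ‖deriv (Kk τ s) r‖ ≤ C * (1 + |s.im|) ^ k * Real.exp (-(π * |s.im| / 2)) *
          (r ^ (-s.re - 1) + r ^ (s.re - 2)) * Real.exp (-(c * r / (1 + |s.im|)))

/-- (ABS) Abel summation for sums over ideals. -/
def T_ABS : Prop :=
  ∀ (K : Type) [Field K] [NumberField K] (D : ℕ), IQ K D → ∀ (ψ : CC K) (g : ℝ → ℂ) (M c : ℝ)
    (a : ℂ), 0 < c → ContinuousOn (deriv g) (Ici 1) →
    (∀ x : ℝ, 1 ≤ x → DifferentiableAt ℝ g x ∧ ‖g x‖ ≤ M * Real.exp (-(c * x)) ∧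
      ‖deriv g x‖ ≤ M * Real.exp (-(c * x))) →
    HasSum (fun J : (Ideal (𝓞 K))⁰ => pv ψ J * g (nm J)) a →
    IntegrableOn (fun x : ℝ => Sp ψ x * deriv g x) (Ioi 1) ∧
      a = -∫ x in Ioi (1 : ℝ), Sp ψ x * deriv g x

/-- (SPT) the trivial bound for the partial sums. -/
def T_SPT : Prop :=
  ∃ C : ℝ, 0 < C ∧ ∀ (K : Type) [Field K] [NumberField K] (D : ℕ), IQ K D →
    ∀ (ψ : CC K), Measurable (Sp ψ) ∧ ∀ x : ℝ, 1 ≤ x → ‖Sp ψ x‖ ≤ C * x ^ 2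

/-- (PBD) the bound for the `L`-function by the partial sums of the coefficients. -/
def T_PBD : Prop :=
  ∃ (C : ℝ) (k : ℕ) (c : ℝ), 0 < C ∧ 0 < c ∧ ∀ (K : Type) [Field K] [NumberField K] (D : ℕ),
    IQ K D → ∀ (ψ : CC K) (F : ℂ → ℂ), IsLf K ψ F → ∀ (s : ℂ) (κ : ℝ),
    |s.re - 1 / 2| ≤ κ → κ ≤ 1 / 8 →
    IntegrableOn (fun x : ℝ => ‖Sp ψ x‖ * x ^ (-(3 / 2) + κ) *
      Real.exp (-(c * x / (Real.sqrt D * (1 + |s.im|))))) (Ioi 1) ∧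
    ‖F s‖ ≤ C * (1 + |s.im|) ^ k * (D : ℝ) ^ κ *
      ∫ x in Ioi (1 : ℝ), ‖Sp ψ x‖ * x ^ (-(3 / 2) + κ) *
        Real.exp (-(c * x / (Real.sqrt D * (1 + |s.im|))))

/-- (TRB) the trivial bound for the `L`-function. -/
def T_TRB : Prop :=
  ∃ (C : ℝ) (k : ℕ), 0 < C ∧ ∀ (K : Type) [Field K] [NumberField K] (D : ℕ),
    IQ K D → ∀ (ψ : CC K) (F : ℂ → ℂ), IsLf K ψ F → ∀ s : ℂ,
    |s.re - 1 / 2| ≤ 1 / 8 → ‖F s‖ ≤ C * (1 + |s.im|) ^ k * (D : ℝ) ^ 2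

/-! ### The fourth moment -/

/-- (MOT) the second moment with partial sums of any length. -/
def T_MOT : Prop :=
  ∀ ε : ℝ, 0 < ε → ∃ κ : ℝ, 0 < κ ∧ κ ≤ 1 / 8 ∧ ∀ c : ℝ, 0 < c → ∃ (C : ℝ) (k : ℕ), 0 < C ∧
    ∀ (s : ℂ) (X x : ℝ) (K : ℕ → Type) [∀ D, Field (K D)] [∀ D, NumberField (K D)]
      (S : Finset ℕ) (F : ∀ D, CC (K D) → ℂ → ℂ),
      |s.re - 1 / 2| ≤ κ → 1 ≤ X → 1 ≤ x → Fml K S F (X / 4) X →
      (∑ D ∈ S, ∑ ψ : CC (K D), ‖Sp ψ x‖ ^ 2 * ‖F D ψ s‖ ^ 2) *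
        Real.exp (-(c * x / (Real.sqrt X * (1 + |s.im|)))) ≤
        C * (1 + |s.im|) ^ k * X ^ (3 / 2 + ε) * x ^ (1 + ε)

/-- (FMS) the fourth moment at a point near the critical line. -/
def T_FMS : Prop :=
  ∀ ε : ℝ, 0 < ε → ∃ κ : ℝ, 0 < κ ∧ κ ≤ 1 / 8 ∧ ∃ (C : ℝ) (k : ℕ), 0 < C ∧
    ∀ (s : ℂ) (X : ℝ) (K : ℕ → Type) [∀ D, Field (K D)] [∀ D, NumberField (K D)]
      (S : Finset ℕ) (F : ∀ D, CC (K D) → ℂ → ℂ),
      |s.re - 1 / 2| ≤ κ → 1 ≤ X → Fml K S F (X / 4) X →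
      ∑ D ∈ S, ∑ ψ : CC (K D), ‖F D ψ s‖ ^ 4 ≤ C * (1 + |s.im|) ^ k * X ^ (3 / 2 + ε)

/-- (SUP) the fourth power is bounded by its mean over a square. -/
def T_SUP : Prop :=
  ∀ κ : ℝ, 0 < κ → ∃ C : ℝ, 0 < C ∧ ∀ (F : ℂ → ℂ) (t : ℝ),
    DifferentiableOn ℂ F {s : ℂ | |s.re - 1 / 2| < 2 * κ} →
    ‖F (1 / 2 + t * Complex.I)‖ ^ 4 ≤
      C * ∫ p in Icc (1 / 2 - κ) (1 / 2 + κ) ×ˢ Icc (t - κ) (t + κ),
        ‖F ((p.1 : ℂ) + (p.2 : ℂ) * Complex.I)‖ ^ 4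

/-- (FM1) the fourth moment, discriminants in `[X / 4, X]`. -/
def T_FM1 : Prop :=
  ∀ ε : ℝ, 0 < ε → ∃ (C : ℝ) (A : ℕ), 0 < C ∧
    ∀ (X : ℝ) (K : ℕ → Type) [∀ D, Field (K D)] [∀ D, NumberField (K D)] (S : Finset ℕ)
      (F : ∀ D, CC (K D) → ℂ → ℂ) (t : ∀ D, CC (K D) → ℝ), 1 ≤ X → Fml K S F (X / 4) X →
      ∑ D ∈ S, ∑ ψ : CC (K D),
        (‖F D ψ (1 / 2 + t D ψ * Complex.I)‖ / (1 + |t D ψ|) ^ A) ^ 4 ≤ C * X ^ (3 / 2 + ε)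

/-- (FM2) the fourth moment, all discriminants up to `X`. -/
def T_FM2 : Prop :=
  ∀ ε : ℝ, 0 < ε → ∃ (C : ℝ) (A : ℕ), 0 < C ∧
    ∀ (X : ℝ) (K : ℕ → Type) [∀ D, Field (K D)] [∀ D, NumberField (K D)] (S : Finset ℕ)
      (F : ∀ D, CC (K D) → ℂ → ℂ) (t : ∀ D, CC (K D) → ℝ), 1 ≤ X → Fml K S F 0 X →
      ∑ D ∈ S, ∑ ψ : CC (K D),
        (‖F D ψ (1 / 2 + t D ψ * Complex.I)‖ / (1 + |t D ψ|) ^ A) ^ 4 ≤ C * X ^ (3 / 2 + ε)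

/-- (COR) almost all fields: all class group `L`-functions are small. -/
def T_COR : Prop :=
  ∀ ε : ℝ, 0 < ε → ∃ (C : ℝ) (A : ℕ), 0 < C ∧
    ∀ (X η : ℝ) (K : ℕ → Type) [∀ D, Field (K D)] [∀ D, NumberField (K D)] (S : Finset ℕ)
      (F : ∀ D, CC (K D) → ℂ → ℂ), 1 ≤ X → 0 ≤ η → η ≤ 1 / 4 → Fml K S F 0 X →
      (∀ D ∈ S, ∃ (ψ : CC (K D)) (t : ℝ),
        (1 + |t|) ^ A * (D : ℝ) ^ (1 / 8 + η) < ‖F D ψ (1 / 2 + t * Complex.I)‖) →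
      (S.card : ℝ) ≤ C * X ^ (1 - 4 * η + ε)

end Pool.Agent.H61.FM
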