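import Pool.Agent.H61.FM.Targets

/-!
# Row SUP: the fourth power of a holomorphic function is bounded by its mean over a square

The proof is helper29's (Pool/Agent/H29/FM/SUP.lean), for the final form of the target.
-/

set_option autoImplicit false

open MeasureTheory Set Filter NumberField
open scoped Real nonZeroDivisors

namespace Pool.Agent.H61.FM

open Pool.Agent.H31.CN Pool.Agent.H89.FM
open Metric

theorem polar_integrableOn {F : ℂ → ℂ} (hF : Integrable F) :
    IntegrableOn (fun p : ℝ × ℝ => p.1 • F (Complex.polarCoord.symm p)) polarCoord.target := by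
  have h1 : Integrable (fun q : ℝ × ℝ => F (Complex.measurableEquivRealProd.symm q)) :=
    (Complex.volume_preserving_equiv_real_prod.symm).integrable_comp_of_integrable hF
  have h2 : IntegrableOn (fun q : ℝ × ℝ => F (Complex.measurableEquivRealProd.symm q))
      (polarCoord.symm '' polarCoord.target) := h1.integrableOn
  rw [integrableOn_image_iff_integrableOn_abs_det_fderiv_smul volume
    polarCoord.open_target.measurableSet
    (fun p _ => (hasFDerivAt_polarCoord_symm p).hasFDerivWithinAt) polarCoord.symm.injOn] at h2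
  refine h2.congr_fun (fun p hp => ?_) polarCoord.open_target.measurableSet
  have h3 : 0 < p.1 := hp.1
  simp only [det_fderivPolarCoordSymm, abs_of_pos h3]
  rfl

/-- Polar coordinates for functions with a constant circle average. -/
theorem polar_const (f : ℂ → ℂ) (c a : ℂ) (r : ℝ) (hr : 0 < r) (hf : IntegrableOn f (ball c r))
    (ha : ∀ ρ : ℝ, 0 < ρ → ρ < r → Real.circleAverage f c ρ = a) :
    ∫ w in ball c r, f w = (π * r ^ 2 : ℝ) • a := by
  let F : ℂ → ℂ := fun z => (ball c r).indicator f (c + z)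
  have hF : Integrable F := by
    have h1 : Integrable ((ball c r).indicator f) :=
      (integrable_indicator_iff measurableSet_ball).2 hf
    exact h1.comp_add_left c
  have e1 : ∫ w in ball c r, f w = ∫ z, F z := by
    rw [← integral_indicator measurableSet_ball]
    exact (integral_add_left_eq_self (fun w => (ball c r).indicator f w) c).symm
  have hval : ∀ ρ θ : ℝ, 0 < ρ → F (Complex.polarCoord.symm (ρ, θ)) =
      if ρ < r then f (circleMap c ρ θ) else 0 := by
    intro ρ θ hρ
    have h2 : c + Complex.polarCoord.symm (ρ, θ) = circleMap c ρ θ := by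
      rw [Complex.polarCoord_symm_apply, circleMap, Complex.exp_mul_I]
      push_cast
      rfl
    show (ball c r).indicator f (c + Complex.polarCoord.symm (ρ, θ)) = _
    rw [h2]
    by_cases h : ρ < r
    · rw [if_pos h, indicator_of_mem]
      rw [mem_ball, dist_eq_norm, circleMap_sub_center, norm_circleMap_zero, abs_of_pos hρ]
      exact h
    · rw [if_neg h, indicator_of_notMem]
      rw [mem_ball, dist_eq_norm, circleMap_sub_center, norm_circleMap_zero, abs_of_pos hρ]
      exact h
  have hinner : ∀ ρ : ℝ, 0 < ρ → ∫ θ in Ioo (-Real.pi) Real.pi,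
      ρ • F (Complex.polarCoord.symm (ρ, θ)) =
      (Iio r).indicator (fun ρ => (2 * Real.pi * ρ : ℝ) • a) ρ := by
    intro ρ hρ
    simp only [hval ρ _ hρ]
    by_cases h : ρ < r
    · simp only [if_pos h]
      rw [indicator_of_mem (show ρ ∈ Iio r from h), ← ha ρ hρ h,
        Real.circleAverage_eq_integral_add (-Real.pi),
        integral_smul, ← integral_Ioc_eq_integral_Ioo,
        ← intervalIntegral.integral_of_le (by linarith [Real.pi_pos])]
      have h3 := intervalIntegral.integral_comp_add_right (a := 0) (b := 2 * Real.pi)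
        (fun θ => f (circleMap c ρ θ)) (-Real.pi)
      rw [h3, smul_smul]
      have h4 : (0 : ℝ) + -Real.pi = -Real.pi := by ring
      have h5 : 2 * Real.pi + -Real.pi = Real.pi := by ring
      have h6 : 2 * Real.pi * ρ * (2 * Real.pi)⁻¹ = ρ := by
        have := Real.pi_pos.ne'
        field_simp
      rw [h4, h5, h6]
    · simp only [if_neg h]
      rw [indicator_of_notMem (show ρ ∉ Iio r from h)]
      simp
  have e2 : ∫ z, F z = ∫ ρ in (0 : ℝ)..r, (2 * Real.pi * ρ : ℝ) • a := by
    rw [← Complex.integral_comp_polarCoord_symm]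
    have h1 := polar_integrableOn hF
    have h2 : polarCoord.target = Ioi (0 : ℝ) ×ˢ Ioo (-Real.pi) Real.pi := rfl
    rw [h2] at h1 ⊢
    rw [Measure.volume_eq_prod] at h1 ⊢
    rw [setIntegral_prod _ h1, setIntegral_congr_fun measurableSet_Ioi fun ρ hρ => hinner ρ hρ,
      setIntegral_indicator measurableSet_Iio, intervalIntegral.integral_of_le hr.le,
      integral_Ioc_eq_integral_Ioo]
    rfl
  rw [e1, e2, intervalIntegral.integral_smul_const, intervalIntegral.integral_const_mul,
    integral_id]
  congr 1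
  ring

/-- Row SUP. -/
theorem pf_SUP : T_SUP := by
  intro κ hκ
  refine ⟨(π * κ ^ 2)⁻¹, by positivity, fun F t hF => ?_⟩
  set S : Set ℂ := {s : ℂ | |s.re - 1 / 2| < 2 * κ} with hS
  set z₀ : ℂ := 1 / 2 + t * Complex.I with hz₀
  have hz₀re : z₀.re = 1 / 2 := by simp [hz₀]
  have hz₀im : z₀.im = t := by simp [hz₀]
  set G : ℂ → ℂ := fun z => F z ^ 4 with hG
  have hGd : DifferentiableOn ℂ G S := hF.pow 4
  have hball : ∀ ρ, ρ ≤ κ → closedBall z₀ ρ ⊆ S := by
    intro ρ hρ z hz
    rw [mem_closedBall, dist_eq_norm] at hz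
    have h1 : |(z - z₀).re| ≤ ‖z - z₀‖ := Complex.abs_re_le_norm _
    rw [Complex.sub_re, hz₀re] at h1
    show |z.re - 1 / 2| < 2 * κ
    linarith
  have hGint : IntegrableOn G (ball z₀ κ) :=
    ((hGd.continuousOn.mono (hball κ le_rfl)).integrableOn_compact
      (isCompact_closedBall z₀ κ)).mono_set ball_subset_closedBall
  have hmean : ∀ ρ : ℝ, 0 < ρ → ρ < κ → Real.circleAverage G z₀ ρ = G z₀ := by
    intro ρ hρ hρκ
    have h1 : DiffContOnCl ℂ G (ball z₀ |ρ|) := by
      rw [abs_of_pos hρ]
      refine ((hGd.mono (hball ρ hρκ.le)).diffContOnCl_ball (U := closedBall z₀ ρ) le_rfl)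
    exact h1.circleAverage
  have hpol := polar_const G z₀ (G z₀) κ hκ hGint hmean
  set g : ℂ → ℝ := fun z => ‖F z‖ ^ 4 with hg
  have hGg : ∀ z, ‖G z‖ = g z := fun z => by simp [hG, hg]
  have h1 : (π * κ ^ 2) * g z₀ ≤ ∫ w in ball z₀ κ, g w := by
    have h2 : ‖∫ w in ball z₀ κ, G w‖ ≤ ∫ w in ball z₀ κ, ‖G w‖ := norm_integral_le_integral_norm _
    rw [hpol, norm_smul, Real.norm_of_nonneg (by positivity), hGg] at h2
    simpa only [hGg] using h2
  -- the square
  set e := Complex.measurableEquivRealProd with he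
  set A : Set ℝ := Icc (1 / 2 - κ) (1 / 2 + κ) with hA
  set B : Set ℝ := Icc (t - κ) (t + κ) with hB
  set h : ℝ × ℝ → ℝ := fun p => ‖F (p.1 + p.2 * Complex.I)‖ ^ 4 with hh
  have hhe : ∀ z : ℂ, h (e z) = g z := by
    intro z
    simp only [hh, hg, he, Complex.measurableEquivRealProd_apply]
    rw [Complex.re_add_im]
  have hcont : ContinuousOn h (A ×ˢ B) := by
    have h3 : ContinuousOn (fun p : ℝ × ℝ => F (p.1 + p.2 * Complex.I)) (A ×ˢ B) := by
      refine hF.continuousOn.comp (Continuous.continuousOn (by fun_prop)) ?_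
      intro p hp
      have hp1 := hp.1
      rw [hA, mem_Icc] at hp1
      show |((p.1 : ℂ) + p.2 * Complex.I).re - 1 / 2| < 2 * κ
      have : ((p.1 : ℂ) + p.2 * Complex.I).re = p.1 := by simp
      rw [this, abs_lt]
      constructor <;> linarith [hp1.1, hp1.2]
    exact h3.norm.pow 4
  have hint : IntegrableOn h (A ×ˢ B) (volume.prod volume) := by
    rw [← Measure.volume_eq_prod]
    exact hcont.integrableOn_compact (isCompact_Icc.prod isCompact_Icc)
  have hsub : ball z₀ κ ⊆ e ⁻¹' (A ×ˢ B) := by
    intro z hz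
    rw [mem_ball, dist_eq_norm] at hz
    have h3 : |(z - z₀).re| ≤ ‖z - z₀‖ := Complex.abs_re_le_norm _
    have h4 : |(z - z₀).im| ≤ ‖z - z₀‖ := Complex.abs_im_le_norm _
    rw [Complex.sub_re, hz₀re, abs_le] at h3
    rw [Complex.sub_im, hz₀im, abs_le] at h4
    show e z ∈ A ×ˢ B
    rw [he, Complex.measurableEquivRealProd_apply]
    refine ⟨⟨?_, ?_⟩, ⟨?_, ?_⟩⟩ <;> simp only <;> linarith [h3.1, h3.2, h4.1, h4.2]
  have hvp := Complex.volume_preserving_equiv_real_prod
  have h5 : ∫ w in e ⁻¹' (A ×ˢ B), g w = ∫ p in A ×ˢ B, h p := by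
    have h6 := hvp.setIntegral_preimage_emb e.measurableEmbedding h (A ×ˢ B)
    rw [← h6]
    refine setIntegral_congr_fun ((measurableSet_Icc.prod measurableSet_Icc).preimage
      e.measurable) fun z _ => (hhe z).symm
  have hgint : IntegrableOn g (e ⁻¹' (A ×ˢ B)) := by
    have h6 := (hvp.integrableOn_comp_preimage e.measurableEmbedding (f := h)
      (s := A ×ˢ B)).2 (by rw [Measure.volume_eq_prod]; exact hint)
    refine h6.congr_fun (fun z _ => hhe z) ((measurableSet_Icc.prod measurableSet_Icc).preimage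
      e.measurable)
  have h7 : ∫ w in ball z₀ κ, g w ≤ ∫ w in e ⁻¹' (A ×ˢ B), g w :=
    setIntegral_mono_set hgint (Eventually.of_forall fun z => by
      simp only [hg, Pi.zero_apply]; positivity)
      (LE.le.eventuallyLE hsub)
  have h9 : (π * κ ^ 2) * g z₀ ≤ ∫ p in A ×ˢ B, h p := by
    rw [← h5]
    exact h1.trans h7
  rw [inv_mul_eq_div, le_div_iff₀ (by positivity), mul_comm]
  exact h9

end Pool.Agent.H61.FM
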