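import Pool.Agent.H61.FM.Targets
import Pool.Agent.H46.CN.OB2
import Pool.Agent.H50.CN.ACT

/-!
# (INE) the forms of different classes are not equivalent
-/

set_option autoImplicit false

open MeasureTheory Set Filter NumberField
open scoped Real nonZeroDivisors

namespace Pool.Agent.H61.FM

open Pool.Agent.H31.CN Pool.Agent.H89.FM

theorem pf_INE : T_INE := by
  constructor
  · intro K _ _ D R c c' g h
    have h1 := Pool.Agent.H46.CN.pf_OB2 K R.σ (R.I c) (R.I c') _ _ _ _ _ _ g (R.ob c) (R.ob c') h
    rwa [R.cl, R.cl] at h1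
  · intro D D' Q Q' g hQ hQ' h
    have h1 := Pool.Agent.H50.CN.dsc_act Q g
    rw [h, hQ.2, hQ'.2] at h1
    exact_mod_cast h1.symm

end Pool.Agent.H61.FM
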