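import Pool.Agent.H61.FM.Targets
import Pool.Agent.H89.FM.Targets1

/-!
# (LF2) the twisted `L`-function in terms of the forms, `Re s > 0`
-/

set_option autoImplicit false

open MeasureTheory Set Filter NumberField Topology
open scoped Real nonZeroDivisors

namespace Pool.Agent.H61.FM

open Pool.Agent.H31.CN Pool.Agent.H89.FM

theorem two_pi_ne : (2 * (π : ℂ)) ≠ 0 := by
  have := Real.pi_pos
  norm_num

/-- the factor in terms of `Γ (s + 1)` -/
theorem gG_eq (s : ℂ) (hs : s ≠ 0) :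
    gG s = (s - 1) * Complex.Gamma (s + 1) * (2 * (π : ℂ)) ^ (-s) := by
  unfold gG
  rw [Complex.Gamma_add_one s hs]
  ring

theorem two_pi_mul (s : ℂ) : (2 * (π : ℂ)) ^ s * (2 * (π : ℂ)) ^ (-s) = 1 := by
  rw [← Complex.cpow_add _ _ two_pi_ne, add_neg_cancel, Complex.cpow_zero]

/-- functions equal for `Re s > 1` and holomorphic outside `1` are equal -/
theorem eq_of_half {A B : ℂ → ℂ} (hA : DifferentiableOn ℂ A {1}ᶜ) (hB : DifferentiableOn ℂ B {1}ᶜ)
    (h : ∀ s : ℂ, 1 < s.re → A s = B s) (s : ℂ) (hs : s ≠ 1) : A s = B s := by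
  have hA' := hA.analyticOnNhd isOpen_compl_singleton
  have hB' := hB.analyticOnNhd isOpen_compl_singleton
  have hc : IsPreconnected ({1}ᶜ : Set ℂ) := by
    have : 1 < Module.rank ℝ ℂ := by
      rw [Complex.rank_real_complex]
      norm_num
    exact (isConnected_compl_singleton_of_one_lt_rank this 1).isPreconnected
  have h2 : (2 : ℂ) ∈ ({1}ᶜ : Set ℂ) := by
    simp
  have he : A =ᶠ[𝓝 2] B := by
    have ho : IsOpen {s : ℂ | 1 < s.re} := isOpen_lt continuous_const Complex.continuous_re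
    have hm : (2 : ℂ) ∈ {s : ℂ | 1 < s.re} := by
      change (1 : ℝ) < (2 : ℂ).re
      simp
    filter_upwards [ho.mem_nhds hm] with s hs
    exact h s hs
  exact hA'.eqOn_of_preconnected_of_eventuallyEq hB' hc h2 he hs

theorem pf_LF2 (hLF1 : T_LF1) (hEZA : T_EZA) (hFLS : Pool.Agent.H89.FM.T_FLS) (hQZV : T_QZV) :
    T_LF2 := by
  classical
  intro K _ _ D hIQ R ψ F hF n hn s hs0 hs1
  have hD : (D : ℂ) ≠ 0 := by exact_mod_cast hIQ.pos.ne'
  have hn1 : 1 ≤ n := Nat.one_le_iff_ne_zero.mpr hn.ne_zero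
  set W : ℂ → ℂ := fun s => (un K : ℂ)⁻¹ * ∑ c, (((ψ c)⁻¹ : ℂˣ) : ℂ) *
        ∑ L ∈ (Ls n).filter (fun L => Dv n L (R.Q c)), Ez s n L (zx (R.Q c)) (zy (R.Q c)) with hW
  have hWd : Differentiable ℂ W := by
    apply Differentiable.const_mul
    apply Differentiable.fun_sum
    intro c _
    apply Differentiable.const_mul
    apply Differentiable.fun_sum
    intro L hL
    have hL1 : L.index = n := ((hFLS n L hn1).1).mp (Finset.mem_filter.mp hL).1
    have hfd := R.fd c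
    have hd : 0 < dsc (R.Q c) := by
      rw [hfd.2]
      exact_mod_cast hIQ.pos
    have hy : 0 < zy (R.Q c) := (hQZV (R.Q c) 0 hfd.1 hd).1
    exact (hEZA n L (zx (R.Q c)) (zy (R.Q c)) hn1 hL1 hy).1
  have hDd : Differentiable ℂ (fun s : ℂ => (D : ℂ) ^ (s / 2)) := by
    intro s
    exact (differentiableAt_id.div_const 2).const_cpow (Or.inl hD)
  have hPd : Differentiable ℂ (fun s : ℂ => (2 * (π : ℂ)) ^ s) := by
    intro s
    exact differentiableAt_id.const_cpow (Or.inl two_pi_ne)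
  have hGd : Differentiable ℂ (fun s : ℂ => (Complex.Gamma (s + 1))⁻¹) :=
    Complex.differentiable_one_div_Gamma.comp (differentiable_id.add_const 1)
  set A : ℂ → ℂ := fun s => lm ψ n * ((s - 1) * (D : ℂ) ^ (s / 2) * F s) with hA
  set B : ℂ → ℂ := fun s => (2 * (π : ℂ)) ^ s * (Complex.Gamma (s + 1))⁻¹ * W s with hB
  have hAd : DifferentiableOn ℂ A {1}ᶜ := by
    apply DifferentiableOn.const_mul
    apply DifferentiableOn.mul
    · exact ((differentiable_id.sub_const 1).mul hDd).differentiableOn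
    · exact hF.1
  have hBd : DifferentiableOn ℂ B {1}ᶜ := ((hPd.mul hGd).mul hWd).differentiableOn
  have hG : ∀ s : ℂ, 0 < s.re → Complex.Gamma (s + 1) ≠ 0 := by
    intro s hs
    apply Complex.Gamma_ne_zero_of_re_pos
    rw [Complex.add_re, Complex.one_re]
    linarith
  have hs0' : ∀ s : ℂ, 0 < s.re → s ≠ 0 := by
    rintro s hs rfl
    simp at hs
  have h1 : ∀ s : ℂ, 1 < s.re → A s = B s := by
    intro s hs
    have h2 := hLF1 K D hIQ R ψ F hF n hn s hs
    have hsp : 0 < s.re := by linarith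
    have h3 := hG s hsp
    change lm ψ n * ((s - 1) * (D : ℂ) ^ (s / 2) * F s) = _ * _ * W s
    change _ = W s at h2
    rw [← h2, gG_eq s (hs0' s hsp)]
    have h4 := two_pi_mul s
    have h5 : (Complex.Gamma (s + 1))⁻¹ * Complex.Gamma (s + 1) = 1 := inv_mul_cancel₀ h3
    calc lm ψ n * ((s - 1) * (D : ℂ) ^ (s / 2) * F s)
        = lm ψ n * ((s - 1) * (D : ℂ) ^ (s / 2) * F s) * (((2 * (π : ℂ)) ^ s * (2 * (π : ℂ)) ^ (-s)) *
          ((Complex.Gamma (s + 1))⁻¹ * Complex.Gamma (s + 1))) := by rw [h4, h5]; ring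
      _ = _ := by ring
  have h6 := eq_of_half hAd hBd h1 s hs1
  change lm ψ n * ((s - 1) * (D : ℂ) ^ (s / 2) * F s) = _ * _ * W s at h6
  change _ = W s
  rw [gG_eq s (hs0' s hs0)]
  have h3 := hG s hs0
  have h4 := two_pi_mul s
  have h5 : (Complex.Gamma (s + 1))⁻¹ * Complex.Gamma (s + 1) = 1 := inv_mul_cancel₀ h3
  calc lm ψ n * ((s - 1) * Complex.Gamma (s + 1) * (2 * (π : ℂ)) ^ (-s) * (D : ℂ) ^ (s / 2) * F s)
      = (lm ψ n * ((s - 1) * (D : ℂ) ^ (s / 2) * F s)) * (Complex.Gamma (s + 1) *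
        (2 * (π : ℂ)) ^ (-s)) := by ring
    _ = ((2 * (π : ℂ)) ^ s * (2 * (π : ℂ)) ^ (-s)) *
        ((Complex.Gamma (s + 1))⁻¹ * Complex.Gamma (s + 1)) * W s := by rw [h6]; ring
    _ = W s := by rw [h4, h5]; ring

end Pool.Agent.H61.FM
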