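import Pool.Agent.H61.FM.Targets
import Pool.Agent.H95.CN.OB1

/-!
# (OBG) every ideal has an oriented basis; (RSX) representatives; (QZV) the metric of a form
-/

set_option autoImplicit false

open NumberField Module
open scoped nonZeroDivisors ComplexConjugate

namespace Pool.Agent.H61.FM

open Pool.Agent.H31.CN Pool.Agent.H89.FM Pool.Agent.H95.CN

/-- the statement with a basis whose orientation is known -/
theorem ob_of_basis' (D : ℕ) (K : Type) [Field K] [NumberField K] (σ : K →+* ℂ)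
    (hr : Module.finrank ℚ K = 2) (hd : discr K = -(D : ℤ)) (hD : 0 < D)
    (I : Ideal (𝓞 K)) (hI : I ≠ ⊥) (α β : 𝓞 K) (hα : α ∈ I) (hβ : β ∈ I)
    (mem : ∀ γ : 𝓞 K, γ ∈ I ↔ ∃ v : ℤ × ℤ, γ = (v.1 : 𝓞 K) * α + (v.2 : 𝓞 K) * β)
    (inj : ∀ v : ℤ × ℤ, (v.1 : 𝓞 K) * α + (v.2 : 𝓞 K) * β = 0 → v = 0)
    (hdis : 4 * ((conj (σ (α : K)) * σ (β : K)).im) ^ 2 = (Ideal.absNorm I : ℝ) ^ 2 * D)
    (ori : 0 < (conj (σ (α : K)) * σ (β : K)).im) :
    ∃ Q : QF, Q ∈ FD D ∧ OB K σ I α β Q := by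
  have hdn : discr K < 0 := by rw [hd]; omega
  have hN0 : Ideal.absNorm I ≠ 0 := by
    rw [Ne, Ideal.absNorm_eq_zero_iff]
    exact hI
  have hNpos : (0 : ℝ) < Ideal.absNorm I := by exact_mod_cast Nat.pos_of_ne_zero hN0
  obtain ⟨A, hA⟩ := Ideal.absNorm_dvd_norm_of_mem hα
  obtain ⟨C, hC⟩ := Ideal.absNorm_dvd_norm_of_mem hβ
  obtain ⟨E, hE⟩ := Ideal.absNorm_dvd_norm_of_mem (I.add_mem hα hβ)
  have eA : (Ideal.absNorm I : ℝ) * A = Complex.normSq (σ (α : K)) := by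
    rw [← nm_eq hr hdn σ, hA]
    push_cast
    rfl
  have eC : (Ideal.absNorm I : ℝ) * C = Complex.normSq (σ (β : K)) := by
    rw [← nm_eq hr hdn σ, hC]
    push_cast
    rfl
  have eE : (Ideal.absNorm I : ℝ) * E = Complex.normSq (σ (α : K) + σ (β : K)) := by
    have h := nm_eq hr hdn σ (α + β)
    rw [hE] at h
    push_cast at h
    rw [map_add] at h
    exact h
  obtain ⟨a, ha⟩ : ∃ a : ℂ, a = σ (α : K) := ⟨_, rfl⟩
  obtain ⟨b, hb⟩ : ∃ b : ℂ, b = σ (β : K) := ⟨_, rfl⟩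
  obtain ⟨N, hN⟩ : ∃ N : ℝ, N = (Ideal.absNorm I : ℝ) := ⟨_, rfl⟩
  rw [← ha, ← hb, ← hN] at hdis eE
  rw [← ha, ← hb] at ori
  rw [← ha, ← hN] at eA
  rw [← hb, ← hN] at eC
  rw [← hN] at hNpos
  rw [Complex.normSq_apply] at eA eC eE
  simp only [Complex.add_re, Complex.add_im] at eE
  have hIm : (conj a * b).im = a.re * b.im - a.im * b.re := by
    simp
    ring
  rw [hIm] at hdis ori
  have eB : N * (E - A - C) = 2 * (a.re * b.re + a.im * b.im) := by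
    linear_combination eE - eA - eC
  have hdsc : (4 * (A : ℝ) * C - (E - A - C) ^ 2) = D := by
    have h1 : N ^ 2 * (4 * (A : ℝ) * C - (E - A - C) ^ 2) = N ^ 2 * D := by
      rw [← hdis]
      have h2 : N ^ 2 * (4 * (A : ℝ) * C - (E - A - C) ^ 2) =
          4 * (N * A) * (N * C) - (N * (E - A - C)) ^ 2 := by ring
      rw [h2, eA, eC, eB]
      ring
    exact mul_left_cancel₀ (pow_ne_zero 2 hNpos.ne') h1
  refine ⟨(A, E - A - C, C), ⟨?_, ?_⟩, ⟨mem, inj, ?_, ?_⟩⟩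
  · show 0 < A
    have h1 : (0 : ℝ) < N * A := by
      rw [eA]
      have h2 : ¬ (a.re = 0 ∧ a.im = 0) := by
        rintro ⟨h3, h4⟩
        rw [h3, h4] at ori
        simp at ori
      rcases not_and_or.1 h2 with h3 | h3
      · have := mul_self_pos.2 h3
        nlinarith [mul_self_nonneg a.im]
      · have := mul_self_pos.2 h3
        nlinarith [mul_self_nonneg a.re]
    have h2 : (0 : ℝ) < A := pos_of_mul_pos_right h1 hNpos.le
    exact_mod_cast h2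
  · show dsc (A, E - A - C, C) = D
    unfold dsc
    exact_mod_cast hdsc
  · intro v
    have hσ : σ (((v.1 : 𝓞 K) * α + (v.2 : 𝓞 K) * β : 𝓞 K) : K) = (v.1 : ℂ) * a + (v.2 : ℂ) * b := by
      rw [ha, hb]
      push_cast
      simp
    rw [hσ, ← hN, Complex.normSq_apply]
    unfold val
    push_cast
    simp only [Complex.add_re, Complex.add_im, Complex.mul_re, Complex.mul_im, Complex.intCast_re,
      Complex.intCast_im, zero_mul, sub_zero, add_zero]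
    linear_combination -(v.1 : ℝ) ^ 2 * eA - (v.1 : ℝ) * v.2 * eB - (v.2 : ℝ) ^ 2 * eC
  · show 0 < (conj (σ (α : K)) * σ (β : K)).im
    rw [← ha, ← hb, hIm]
    exact ori

theorem pf_OBG : T_OBG := by
  intro K _ _ D σ hIQ I hI
  have hD := hIQ.pos
  have hr := hIQ.rk
  have hd := hIQ.dis
  have hdn : discr K < 0 := by rw [hd]; omega
  have hr2 : Module.finrank ℤ (𝓞 K) = 2 := by rw [RingOfIntegers.rank, hr]
  obtain ⟨b0⟩ : Nonempty (Basis (Fin 2) ℤ (𝓞 K)) := ⟨Module.finBasisOfFinrankEq ℤ (𝓞 K) hr2⟩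
  obtain ⟨bI⟩ : Nonempty (Basis (Fin 2) ℤ I) := ⟨Ideal.selfBasis b0 I hI⟩
  have h1 := discr_ideal hr I bI
  have h2 := discr_pair hr hdn σ (fun i => (bI i : 𝓞 K))
  rw [h1, hd] at h2
  have hdis : 4 * ((conj (σ ((bI 0 : 𝓞 K) : K)) * σ ((bI 1 : 𝓞 K) : K)).im) ^ 2 =
      (Ideal.absNorm I : ℝ) ^ 2 * D := by
    push_cast at h2
    linarith
  have hN0 : Ideal.absNorm I ≠ 0 := by
    rw [Ne, Ideal.absNorm_eq_zero_iff]
    exact hI
  have hNpos : (0 : ℝ) < Ideal.absNorm I := by exact_mod_cast Nat.pos_of_ne_zero hN0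
  have hne : (conj (σ ((bI 0 : 𝓞 K) : K)) * σ ((bI 1 : 𝓞 K) : K)).im ≠ 0 := by
    intro h0
    rw [h0] at hdis
    have : (0 : ℝ) < (Ideal.absNorm I : ℝ) ^ 2 * D := by
      have : (0 : ℝ) < D := by exact_mod_cast hD
      positivity
    linarith
  have memI : ∀ γ : 𝓞 K, γ ∈ I ↔ ∃ v : ℤ × ℤ, γ = (v.1 : 𝓞 K) * (bI 0 : 𝓞 K) +
      (v.2 : 𝓞 K) * (bI 1 : 𝓞 K) := by
    intro γ
    constructor
    · intro hγ
      have h3 := bI.sum_repr ⟨γ, hγ⟩
      rw [Fin.sum_univ_two] at h3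
      refine ⟨(bI.repr ⟨γ, hγ⟩ 0, bI.repr ⟨γ, hγ⟩ 1), ?_⟩
      have h4 := congrArg (Subtype.val) h3
      simp only [Submodule.coe_add, Submodule.coe_smul_of_tower, zsmul_eq_mul] at h4
      exact h4.symm
    · rintro ⟨v, rfl⟩
      exact I.add_mem (I.mul_mem_left _ (bI 0).2) (I.mul_mem_left _ (bI 1).2)
  have injI : ∀ v : ℤ × ℤ, (v.1 : 𝓞 K) * (bI 0 : 𝓞 K) + (v.2 : 𝓞 K) * (bI 1 : 𝓞 K) = 0 →
      v = 0 := by
    intro v hv
    have h3 := bI.linearIndependent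
    rw [Fintype.linearIndependent_iff] at h3
    have h4 := h3 ![v.1, v.2] (by
      rw [Fin.sum_univ_two]
      apply Subtype.ext
      simp only [Matrix.cons_val_zero, Matrix.cons_val_one, Submodule.coe_add,
        Submodule.coe_smul_of_tower, zsmul_eq_mul, ZeroMemClass.coe_zero]
      exact hv)
    exact Prod.ext (h4 0) (h4 1)
  rcases lt_or_gt_of_ne hne with hlt | hgt
  · refine ⟨(bI 1 : 𝓞 K), (bI 0 : 𝓞 K), ?_⟩
    have hsw : (conj (σ ((bI 1 : 𝓞 K) : K)) * σ ((bI 0 : 𝓞 K) : K)).im =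
        -(conj (σ ((bI 0 : 𝓞 K) : K)) * σ ((bI 1 : 𝓞 K) : K)).im := by
      simp
      ring
    refine ob_of_basis' D K σ hr hd hD I hI _ _ (bI 1).2 (bI 0).2 ?_ ?_ ?_ ?_
    · intro γ
      rw [memI γ]
      constructor
      · rintro ⟨v, hv⟩
        exact ⟨(v.2, v.1), by rw [hv, add_comm]⟩
      · rintro ⟨v, hv⟩
        exact ⟨(v.2, v.1), by rw [hv, add_comm]⟩
    · intro v hv
      have := injI (v.2, v.1) (by rw [← hv, add_comm])
      exact Prod.ext (congrArg Prod.snd this) (congrArg Prod.fst this)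
    · rw [hsw, neg_sq]
      exact hdis
    · rw [hsw]
      linarith
  · refine ⟨(bI 0 : 𝓞 K), (bI 1 : 𝓞 K), ?_⟩
    exact ob_of_basis' D K σ hr hd hD I hI _ _ (bI 0).2 (bI 1).2 memI injI hdis hgt

theorem pf_RSX (hOBG : T_OBG) : T_RSX := by
  intro K _ _ D hIQ
  obtain ⟨σ⟩ : Nonempty (K →+* ℂ) := inferInstance
  have hex : ∀ c : ClassGroup (𝓞 K), ∃ (I : (Ideal (𝓞 K))⁰) (α β : 𝓞 K) (Q : QF),
      ClassGroup.mk0 I = c ∧ Q ∈ FD D ∧ OB K σ I α β Q := by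
    intro c
    obtain ⟨I, hI⟩ := ClassGroup.mk0_surjective c
    obtain ⟨α, β, Q, hQ, h⟩ := hOBG K D σ hIQ I (nonZeroDivisors.coe_ne_zero I)
    exact ⟨I, α, β, Q, hI, hQ, h⟩
  choose I α β Q hI hQ hOB using hex
  exact ⟨⟨σ, I, α, β, Q, hI, hQ, hOB⟩⟩

theorem pf_QZV : T_QZV := by
  intro Q v hA hd
  have hA' : (0 : ℝ) < Q.1 := by exact_mod_cast hA
  have hd' : (0 : ℝ) < dsc Q := by exact_mod_cast hd
  have hs : 0 < Real.sqrt (dsc Q) := Real.sqrt_pos.mpr hd'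
  have hss : Real.sqrt (dsc Q) ^ 2 = dsc Q := Real.sq_sqrt hd'.le
  have hdd : (dsc Q : ℝ) = 4 * Q.1 * Q.2.2 - Q.2.1 ^ 2 := by
    unfold dsc
    push_cast
    ring
  refine ⟨by unfold zy; positivity, ?_⟩
  unfold qz zx zy val
  generalize Real.sqrt (dsc Q) = S at hs hss ⊢
  rw [hdd] at hss
  push_cast
  have e : ((v.1 : ℝ) + v.2 * ((Q.2.1 : ℝ) / (2 * Q.1))) ^ 2 + ((v.2 : ℝ) * (S / (2 * Q.1))) ^ 2 =
      ((Q.1 : ℝ) * v.1 ^ 2 + Q.2.1 * v.1 * v.2 + Q.2.2 * v.2 ^ 2) / Q.1 := by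
    field_simp
    linear_combination (v.2 : ℝ) ^ 2 * hss
  rw [e]
  field_simp

end Pool.Agent.H61.FM
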