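import Pool.Agent.H61.FM.Targets

/-!
# (PVF) the twisted second moment for one field
-/

set_option autoImplicit false

open MeasureTheory Set Filter NumberField
open scoped Real nonZeroDivisors

namespace Pool.Agent.H61.FM

open Pool.Agent.H31.CN Pool.Agent.H89.FM

theorem pf_PVF (hLF2 : T_LF2) (hPVL : T_PVL) : T_PVF := by
  classical
  intro K _ _ D hIQ R F hF s N α hs
  have hs' := abs_le.mp hs
  have hs0 : 0 < s.re := by linarith [hs'.1]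
  have hs1 : s ≠ 1 := by
    rintro rfl
    have := hs'.2
    rw [Complex.one_re] at this
    norm_num at this
  have hD : (0 : ℝ) < D := by exact_mod_cast hIQ.pos
  set z : ClassGroup (𝓞 K) → ℂ := fun c => Bf s α N (R.Q c) with hz
  have key : ∀ ψ : CC K, (∑ n ∈ Sq N, α n * lm ψ n) * (gG s * (D : ℂ) ^ (s / 2) * F ψ s) =
      (un K : ℂ)⁻¹ * ∑ c, (((ψ c)⁻¹ : ℂˣ) : ℂ) * z c := by
    intro ψ
    rw [Finset.sum_mul]
    have h1 : ∀ n ∈ Sq N, α n * lm ψ n * (gG s * (D : ℂ) ^ (s / 2) * F ψ s) =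
        (un K : ℂ)⁻¹ * ∑ c, (((ψ c)⁻¹ : ℂˣ) : ℂ) * (α n *
          ∑ L ∈ (Ls n).filter (fun L => Dv n L (R.Q c)), Ez s n L (zx (R.Q c)) (zy (R.Q c))) := by
      intro n hn
      have hsq : Squarefree n := (Finset.mem_filter.mp hn).2
      rw [mul_assoc, hLF2 K D hIQ R ψ (F ψ) (hF ψ) n hsq s hs0 hs1, Finset.mul_sum, Finset.mul_sum,
        Finset.mul_sum]
      refine Finset.sum_congr rfl fun c _ => ?_
      ring
    rw [Finset.sum_congr rfl h1, ← Finset.mul_sum, Finset.sum_comm]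
    congr 1
    refine Finset.sum_congr rfl fun c _ => ?_
    rw [← Finset.mul_sum]
    rfl
  have hnD : ‖(D : ℂ) ^ (s / 2)‖ ^ 2 = (D : ℝ) ^ s.re := by
    have h1 : (D : ℂ) = ((D : ℝ) : ℂ) := by push_cast; rfl
    rw [h1, Complex.norm_cpow_eq_rpow_re_of_pos hD, ← Real.rpow_natCast, ← Real.rpow_mul hD.le]
    congr 1
    have : (s / 2).re = s.re / 2 := by
      rw [show s / 2 = s / ((2 : ℝ) : ℂ) by push_cast; rfl, Complex.div_ofReal_re]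
    rw [this]
    push_cast
    ring
  have h2 : ∀ ψ : CC K, ‖∑ n ∈ Sq N, α n * lm ψ n‖ ^ 2 * ‖F ψ s‖ ^ 2 *
      (‖gG s‖ ^ 2 * (D : ℝ) ^ s.re) =
      ‖(un K : ℂ)⁻¹‖ ^ 2 * ‖∑ c, (((ψ c)⁻¹ : ℂˣ) : ℂ) * z c‖ ^ 2 := by
    intro ψ
    rw [← mul_pow, ← norm_mul, ← mul_pow ‖(un K : ℂ)⁻¹‖, ← norm_mul, ← key ψ, norm_mul, norm_mul,
      norm_mul, mul_pow, mul_pow, mul_pow, norm_mul, mul_pow, hnD]
    ring
  have hw : ‖(un K : ℂ)⁻¹‖ ^ 2 ≤ 1 := by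
    rw [norm_inv, Complex.norm_natCast]
    rcases Nat.eq_zero_or_pos (un K) with h | h
    · rw [h]
      simp
    · have h3 : (1 : ℝ) ≤ un K := by exact_mod_cast h
      exact pow_le_one₀ (by positivity) (inv_le_one_of_one_le₀ h3)
  calc ∑ ψ : CC K, ‖∑ n ∈ Sq N, α n * lm ψ n‖ ^ 2 * ‖F ψ s‖ ^ 2 * (‖gG s‖ ^ 2 * (D : ℝ) ^ s.re)
      = ‖(un K : ℂ)⁻¹‖ ^ 2 * ∑ ψ : CC K, ‖∑ c, (((ψ c)⁻¹ : ℂˣ) : ℂ) * z c‖ ^ 2 := by
        rw [Finset.mul_sum]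
        exact Finset.sum_congr rfl fun ψ _ => h2 ψ
    _ ≤ 1 * ∑ ψ : CC K, ‖∑ c, (((ψ c)⁻¹ : ℂˣ) : ℂ) * z c‖ ^ 2 := by
        apply mul_le_mul_of_nonneg_right hw
        exact Finset.sum_nonneg fun _ _ => sq_nonneg _
    _ = _ := by
        rw [one_mul, hPVL (ClassGroup (𝓞 K)) z]

end Pool.Agent.H61.FM
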