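import Pool.Agent.H61.FM.Targets

/-!
# (TMF) the twisted second moment of the `L`-functions
-/

set_option autoImplicit false

open MeasureTheory Set Filter NumberField
open scoped Real nonZeroDivisors

namespace Pool.Agent.H61.FM

open Pool.Agent.H31.CN Pool.Agent.H89.FM

/-- one field -/
theorem one_field (hPVF : T_PVF) {ε κ C1 C2 : ℝ} {k2 : ℕ} (hε : 0 < ε) (hκ0 : 0 < κ)
    (hκ : κ ≤ 1 / 8) (hC1 : 0 < C1) (hC2 : 0 < C2)
    (h1 : ∀ (K : Type) [Field K] [NumberField K] (D : ℕ), IQ K D →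
      (Fintype.card (ClassGroup (𝓞 K)) : ℝ) ≤ C1 * (D : ℝ) ^ (1 / 2 + ε) ∧
      (Fintype.card (CC K) : ℝ) ≤ C1 * (D : ℝ) ^ (1 / 2 + ε))
    (h2 : ∀ s : ℂ, |s.re - 1 / 2| ≤ 1 / 8 →
      Real.exp (-(π * |s.im| / 2)) ≤ C2 * (1 + |s.im|) ^ k2 * ‖gG s‖)
    (K : Type) [Field K] [NumberField K] (D : ℕ) (hIQ : IQ K D) (R : RS K D)
    (F : CC K → ℂ → ℂ) (hF : ∀ ψ, IsLf K ψ (F ψ)) (s : ℂ) (N : ℕ) (α : ℕ → ℂ) (X : ℝ)
    (hX : 1 ≤ X) (hs : |s.re - 1 / 2| ≤ κ) (hD1 : X / 4 ≤ D) (hD2 : (D : ℝ) ≤ X) :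
    ∑ ψ : CC K, ‖∑ n ∈ Sq N, α n * lm ψ n‖ ^ 2 * ‖F ψ s‖ ^ 2 ≤
      (2 * C1 * C2 ^ 2) * ((1 + |s.im|) ^ (2 * k2) * Real.exp (π * |s.im|) * X ^ (κ + ε)) *
        ∑ c, ‖Bf s α N (R.Q c)‖ ^ 2 := by
  have hs8 : |s.re - 1 / 2| ≤ 1 / 8 := hs.trans hκ
  have hP := hPVF K D hIQ R F hF s N α hs8
  rw [← Finset.sum_mul] at hP
  set P : ℝ := ∑ ψ : CC K, ‖∑ n ∈ Sq N, α n * lm ψ n‖ ^ 2 * ‖F ψ s‖ ^ 2 with hPd
  set B : ℝ := ∑ c, ‖Bf s α N (R.Q c)‖ ^ 2 with hB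
  have hP0 : 0 ≤ P := Finset.sum_nonneg fun _ _ => by positivity
  have hB0 : 0 ≤ B := Finset.sum_nonneg fun _ _ => by positivity
  have hX0 : 0 < X := by linarith
  have hD0 : (1 : ℝ) ≤ D := by exact_mod_cast hIQ.pos
  set T : ℝ := 1 + |s.im| with hT
  have hT1 : 1 ≤ T := by
    have := abs_nonneg s.im
    linarith
  have hg := h2 s hs8
  have hg2 : Real.exp (-(π * |s.im|)) ≤ C2 ^ 2 * T ^ (2 * k2) * ‖gG s‖ ^ 2 := by
    calc Real.exp (-(π * |s.im|)) = Real.exp (-(π * |s.im| / 2)) ^ 2 := by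
          rw [← Real.exp_nat_mul]
          congr 1
          push_cast
          ring
      _ ≤ (C2 * T ^ k2 * ‖gG s‖) ^ 2 := pow_le_pow_left₀ (Real.exp_pos _).le hg 2
      _ = _ := by ring
  have hs' := abs_le.mp hs
  have hDs : X ^ (1 / 2 - κ) / 2 ≤ (D : ℝ) ^ s.re := by
    calc X ^ (1 / 2 - κ) / 2 ≤ (X / 4) ^ (1 / 2 - κ) := by
          rw [Real.div_rpow hX0.le (by norm_num)]
          apply div_le_div_of_nonneg_left (Real.rpow_nonneg hX0.le _)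
            (Real.rpow_pos_of_pos (by norm_num) _)
          have e : (2 : ℝ) = 4 ^ (1 / 2 : ℝ) := by
            rw [show (4 : ℝ) = 2 ^ (2 : ℝ) by norm_num, ← Real.rpow_mul (by norm_num)]
            norm_num
          calc (4 : ℝ) ^ (1 / 2 - κ) ≤ 4 ^ (1 / 2 : ℝ) :=
                Real.rpow_le_rpow_of_exponent_le (by norm_num) (by linarith)
            _ = 2 := e.symm
      _ ≤ (D : ℝ) ^ (1 / 2 - κ) :=
          Real.rpow_le_rpow (by positivity) hD1 (by linarith)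
      _ ≤ (D : ℝ) ^ s.re := Real.rpow_le_rpow_of_exponent_le hD0 (by linarith [hs'.1])
  have hh : (Fintype.card (ClassGroup (𝓞 K)) : ℝ) ≤ C1 * X ^ (1 / 2 + ε) :=
    (h1 K D hIQ).1.trans (mul_le_mul_of_nonneg_left
      (Real.rpow_le_rpow (by positivity) hD2 (by linarith)) hC1.le)
  have hXs : X ^ (1 / 2 + ε) = X ^ (κ + ε) * X ^ (1 / 2 - κ) := by
    rw [← Real.rpow_add hX0]
    congr 1
    ring
  have hXp : 0 < X ^ (1 / 2 - κ) := Real.rpow_pos_of_pos hX0 _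
  have hE : Real.exp (π * |s.im|) * Real.exp (-(π * |s.im|)) = 1 := by
    rw [← Real.exp_add, add_neg_cancel, Real.exp_zero]
  have hEp := Real.exp_pos (π * |s.im|)
  have hmain : P * (Real.exp (-(π * |s.im|)) * (X ^ (1 / 2 - κ) / 2)) ≤
      C2 ^ 2 * T ^ (2 * k2) * (C1 * (X ^ (κ + ε) * X ^ (1 / 2 - κ))) * B := by
    calc P * (Real.exp (-(π * |s.im|)) * (X ^ (1 / 2 - κ) / 2))
        ≤ P * ((C2 ^ 2 * T ^ (2 * k2) * ‖gG s‖ ^ 2) * (D : ℝ) ^ s.re) := by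
          apply mul_le_mul_of_nonneg_left _ hP0
          exact mul_le_mul hg2 hDs (by positivity) (by positivity)
      _ = C2 ^ 2 * T ^ (2 * k2) * (P * (‖gG s‖ ^ 2 * (D : ℝ) ^ s.re)) := by ring
      _ ≤ C2 ^ 2 * T ^ (2 * k2) * (Fintype.card (ClassGroup (𝓞 K)) * B) :=
          mul_le_mul_of_nonneg_left hP (by positivity)
      _ ≤ C2 ^ 2 * T ^ (2 * k2) * ((C1 * X ^ (1 / 2 + ε)) * B) := by
          apply mul_le_mul_of_nonneg_left _ (by positivity)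
          exact mul_le_mul_of_nonneg_right hh hB0
      _ = _ := by rw [hXs]; ring
  have h3 : P * (Real.exp (-(π * |s.im|)) * (X ^ (1 / 2 - κ) / 2)) *
      (2 * Real.exp (π * |s.im|)) ≤ (C2 ^ 2 * T ^ (2 * k2) * (C1 * (X ^ (κ + ε) *
        X ^ (1 / 2 - κ))) * B) * (2 * Real.exp (π * |s.im|)) :=
    mul_le_mul_of_nonneg_right hmain (by positivity)
  have h4 : P * X ^ (1 / 2 - κ) ≤ ((2 * C1 * C2 ^ 2) * (T ^ (2 * k2) * Real.exp (π * |s.im|) *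
      X ^ (κ + ε)) * B) * X ^ (1 / 2 - κ) := by
    calc P * X ^ (1 / 2 - κ) = P * X ^ (1 / 2 - κ) *
          (Real.exp (π * |s.im|) * Real.exp (-(π * |s.im|))) := by rw [hE, mul_one]
      _ = P * (Real.exp (-(π * |s.im|)) * (X ^ (1 / 2 - κ) / 2)) *
          (2 * Real.exp (π * |s.im|)) := by ring
      _ ≤ _ := h3
      _ = _ := by ring
  exact le_of_mul_le_mul_right h4 hXp

theorem act_one (Q : QF) : act Q 1 = Q := by
  unfold act val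
  simp

theorem pf_TMF (hTM : T_TM) (hPVF : T_PVF) (hHBD : T_HBD) (hGML : T_GML) (hINE : T_INE)
    (hRSX : T_RSX) : T_TMF := by
  classical
  intro ε hε
  obtain ⟨κ0, hκ0, hκ8, δ, hδ, C0, k0, hC0⟩ := hTM (ε / 2) (by positivity)
  obtain ⟨C1, hC1, h1⟩ := hHBD (ε / 4) (by positivity)
  obtain ⟨C2, k2, hC2, h2⟩ := hGML
  set κ : ℝ := min κ0 (ε / 4) with hκ
  have hκpos : 0 < κ := lt_min hκ0 (by positivity)
  have hκle8 : κ ≤ 1 / 8 := (min_le_left _ _).trans hκ8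
  refine ⟨κ, hκpos, hκle8, δ, hδ, (2 * C1 * C2 ^ 2) * (|C0| + 1), 2 * k2 + k0, by positivity, ?_⟩
  intro s X N α K _ _ S F hs hX hN hNX hα hFml
  have hX0 : 0 < X := by linarith
  -- representatives
  have hRS : ∀ D : {D // D ∈ S}, Nonempty (RS (K D.1) D.1) := fun D =>
    hRSX (K D.1) D.1 (hFml D.1 D.2).2.2.1
  let R : ∀ D : {D // D ∈ S}, RS (K D.1) D.1 := fun D => Classical.choice (hRS D)
  let f : (Σ D : {D // D ∈ S}, ClassGroup (𝓞 (K D.1))) → QF := fun x => (R x.1).Q x.2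
  have hinj : ∀ (x y : Σ D : {D // D ∈ S}, ClassGroup (𝓞 (K D.1)))
      (g : Matrix.SpecialLinearGroup (Fin 2) ℤ), act (f x) g = f y → x = y := by
    rintro ⟨⟨D, hD⟩, c⟩ ⟨⟨D', hD'⟩, c'⟩ g h
    have h3 := hINE.2 D D' _ _ g ((R ⟨D, hD⟩).fd c) ((R ⟨D', hD'⟩).fd c') h
    subst h3
    have h4 := hINE.1 (K D) D (R ⟨D, hD⟩) c c' g h
    subst h4
    rfl
  have hf : Function.Injective f := by
    intro x y h
    exact hinj x y 1 (by rw [act_one]; exact h)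
  set S' : Finset QF := Finset.univ.image f with hS'
  set Y : ℝ := X ^ (1 / 2 : ℝ) with hY
  have hY1 : 1 ≤ Y := Real.one_le_rpow hX (by norm_num)
  have hY2 : Y ^ 2 = X := by
    rw [hY, ← Real.rpow_natCast, ← Real.rpow_mul hX0.le]
    norm_num
  have hYr : ∀ r : ℝ, Y ^ r = X ^ (r / 2) := by
    intro r
    rw [hY, ← Real.rpow_mul hX0.le]
    congr 1
    ring
  have hs0 : |s.re - 1 / 2| ≤ κ0 := hs.trans (min_le_left _ _)
  have hT := hC0 s Y N α S' hs0 hY1 hN (by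
    rw [hYr]
    exact hNX) hα (by
    intro Q hQ
    obtain ⟨x, -, rfl⟩ := Finset.mem_image.mp hQ
    have hfd := (R x.1).fd x.2
    have hm := hFml x.1.1 x.1.2
    have hd : ((dsc (f x) : ℤ) : ℝ) = (x.1.1 : ℝ) := by
      change ((dsc ((R x.1).Q x.2) : ℤ) : ℝ) = _
      rw [hfd.2]
      push_cast
      rfl
    refine ⟨hfd.1, ?_, ?_⟩
    · rw [hd, hY2]
      exact hm.1
    · rw [hd, hY2]
      exact hm.2.1) (by
    intro Q hQ Q' hQ' g hg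
    obtain ⟨x, -, rfl⟩ := Finset.mem_image.mp hQ
    obtain ⟨y, -, rfl⟩ := Finset.mem_image.mp hQ'
    rw [hinj x y g hg])
  have hsum : ∑ Q ∈ S', ‖Bf s α N Q‖ ^ 2 =
      ∑ D : {D // D ∈ S}, ∑ c : ClassGroup (𝓞 (K D.1)), ‖Bf s α N ((R D).Q c)‖ ^ 2 := by
    rw [hS', Finset.sum_image (fun x _ y _ h => hf h), Fintype.sum_sigma]
  set T : ℝ := 1 + |s.im| with hTd
  have hT1 : 1 ≤ T := by
    have := abs_nonneg s.im
    linarith
  rw [hsum, hYr] at hT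
  have hcoe : ∑ D ∈ S, ∑ ψ : CC (K D), ‖∑ n ∈ Sq N, α n * lm ψ n‖ ^ 2 * ‖F D ψ s‖ ^ 2 =
      ∑ D : {D // D ∈ S}, ∑ ψ : CC (K D.1), ‖∑ n ∈ Sq N, α n * lm ψ n‖ ^ 2 *
        ‖F D.1 ψ s‖ ^ 2 :=
    (Finset.sum_coe_sort S (fun D => ∑ ψ : CC (K D), ‖∑ n ∈ Sq N, α n * lm ψ n‖ ^ 2 *
      ‖F D ψ s‖ ^ 2)).symm
  rw [hcoe]
  have hN0 : (0 : ℝ) ≤ N := Nat.cast_nonneg N
  have hEe : Real.exp (π * |s.im|) * Real.exp (-(π * |s.im|)) = 1 := by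
    rw [← Real.exp_add, add_neg_cancel, Real.exp_zero]
  have hEp := Real.exp_pos (π * |s.im|)
  have hEm := Real.exp_pos (-(π * |s.im|))
  calc ∑ D : {D // D ∈ S}, ∑ ψ : CC (K D.1), ‖∑ n ∈ Sq N, α n * lm ψ n‖ ^ 2 * ‖F D.1 ψ s‖ ^ 2
      ≤ ∑ D : {D // D ∈ S}, (2 * C1 * C2 ^ 2) * (T ^ (2 * k2) * Real.exp (π * |s.im|) *
          X ^ (κ + ε / 4)) * ∑ c : ClassGroup (𝓞 (K D.1)), ‖Bf s α N ((R D).Q c)‖ ^ 2 := by
        apply Finset.sum_le_sum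
        intro D _
        have hm := hFml D.1 D.2
        exact one_field hPVF (by positivity) hκpos hκle8 hC1 hC2 h1 h2 (K D.1) D.1 hm.2.2.1 (R D)
          (F D.1) hm.2.2.2 s N α X hX hs hm.1 hm.2.1
    _ = (2 * C1 * C2 ^ 2) * (T ^ (2 * k2) * Real.exp (π * |s.im|) * X ^ (κ + ε / 4)) *
          ∑ D : {D // D ∈ S}, ∑ c : ClassGroup (𝓞 (K D.1)), ‖Bf s α N ((R D).Q c)‖ ^ 2 := by
        rw [Finset.mul_sum]
    _ ≤ (2 * C1 * C2 ^ 2) * (T ^ (2 * k2) * Real.exp (π * |s.im|) * X ^ (κ + ε / 4)) *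
          (C0 * T ^ k0 * Real.exp (-(π * |s.im|)) * X ^ ((3 + ε / 2) / 2) * N) :=
        mul_le_mul_of_nonneg_left hT (by positivity)
    _ ≤ (2 * C1 * C2 ^ 2) * (T ^ (2 * k2) * Real.exp (π * |s.im|) * X ^ (κ + ε / 4)) *
          ((|C0| + 1) * T ^ k0 * Real.exp (-(π * |s.im|)) * X ^ ((3 + ε / 2) / 2) * N) := by
        apply mul_le_mul_of_nonneg_left _ (by positivity)
        have : C0 ≤ |C0| + 1 := by linarith [le_abs_self C0]
        gcongr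
    _ = (2 * C1 * C2 ^ 2) * (|C0| + 1) * T ^ (2 * k2 + k0) *
          (X ^ (κ + ε / 4) * X ^ ((3 + ε / 2) / 2)) * N *
          (Real.exp (π * |s.im|) * Real.exp (-(π * |s.im|))) := by ring
    _ = (2 * C1 * C2 ^ 2) * (|C0| + 1) * T ^ (2 * k2 + k0) *
          X ^ (κ + ε / 4 + (3 + ε / 2) / 2) * N := by
        rw [hEe, mul_one, ← Real.rpow_add hX0]
    _ ≤ (2 * C1 * C2 ^ 2) * (|C0| + 1) * T ^ (2 * k2 + k0) * X ^ (3 / 2 + ε) * N := by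
        have hκ4 : κ ≤ ε / 4 := min_le_right _ _
        have : X ^ (κ + ε / 4 + (3 + ε / 2) / 2) ≤ X ^ (3 / 2 + ε) :=
          Real.rpow_le_rpow_of_exponent_le hX (by linarith)
        gcongr

end Pool.Agent.H61.FM
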