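import Pool.Agent.H11.FM.MUL
import Pool.Agent.H16.FM.LIN
import Pool.Agent.H16.FM.TWS
import Pool.Agent.H17.FM.HBD
import Pool.Agent.H18.FM.ABS
import Pool.Agent.H21.FM.KR1
import Pool.Agent.H21.FM.LF1
import Pool.Agent.H21.FM.LSU
import Pool.Agent.H23.FM.PVL
import Pool.Agent.H32.FM.MOS
import Pool.Agent.H42.FM.DVB
import Pool.Agent.H42.FM.GML
import Pool.Agent.H51.FM.SPT
import Pool.Agent.H51.FM.TRB
import Pool.Agent.H55.FM.LFK
import Pool.Agent.H55.FM.SFS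
import Pool.Agent.H60.FM.VIG
import Pool.Agent.H61.FM.INE
import Pool.Agent.H61.FM.LF2
import Pool.Agent.H61.FM.OBG
import Pool.Agent.H61.FM.PVF
import Pool.Agent.H61.FM.SUP
import Pool.Agent.H61.FM.TMF
import Pool.Agent.H73.FM.KRB
import Pool.Agent.H75.FM.PBD
import Pool.Agent.H77.FM.COR
import Pool.Agent.H77.FM.EXL
import Pool.Agent.H79.FM.FM1
import Pool.Agent.H79.FM.FM2
import Pool.Agent.H83.FM.MOT
import Pool.Agent.H86.FM.SQD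
import Pool.Agent.H92.FM.FMS
import Pool.Agent.H89.FM.Targets1

/-!
# The fourth moment of the class group `L`-functions: assembly of part 3
-/

set_option autoImplicit false

namespace Pool.Agent.H61.FM

open Pool.Agent.H31.CN Pool.Agent.H89.FM

theorem a_OBG : T_OBG := Pool.Agent.H61.FM.pf_OBG

theorem a_RSX : T_RSX := Pool.Agent.H61.FM.pf_RSX a_OBG

theorem a_VIG : T_VIG := Pool.Agent.H60.FM.pf_VIG

theorem a_TWS : T_TWS := Pool.Agent.H16.FM.pf_TWS a_VIG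

theorem a_LIN : T_LIN := Pool.Agent.H16.FM.pf_LIN a_VIG

theorem a_LSU : T_LSU := Pool.Agent.H21.FM.pf_LSU a_VIG a_LIN

theorem a_QZV : T_QZV := Pool.Agent.H61.FM.pf_QZV

theorem a_MUL : T_MUL := Pool.Agent.H11.FM.pf_MUL

theorem a_PVL : T_PVL := Pool.Agent.H23.FM.pf_PVL

theorem a_HBD : T_HBD := Pool.Agent.H17.FM.pf_HBD

theorem a_GML : T_GML := Pool.Agent.H42.FM.pf_GML

theorem a_INE : T_INE := Pool.Agent.H61.FM.pf_INE

theorem a_DVB : T_DVB := Pool.Agent.H42.FM.pf_DVB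

theorem a_SQD : T_SQD := Pool.Agent.H86.FM.pf_SQD

theorem a_SFS : T_SFS := Pool.Agent.H55.FM.pf_SFS

theorem a_KR1 : T_KR1 := Pool.Agent.H21.FM.pf_KR1

theorem a_KRB : T_KRB := Pool.Agent.H73.FM.pf_KRB a_KR1

theorem a_SPT : T_SPT := Pool.Agent.H51.FM.pf_SPT a_DVB

theorem a_ABS : T_ABS := Pool.Agent.H18.FM.pf_ABS a_SPT

theorem a_SUP : T_SUP := Pool.Agent.H61.FM.pf_SUP

/-- part 3: from the twisted second moment over the classes of forms -/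
theorem part3 (hTM : T_TM) (hFLS : T_FLS) (hEZA : T_EZA) (hEZR : T_EZR) :
    T_EXL ∧ T_TMF ∧ T_FM2 ∧ T_COR := by
  have c_LF1 : T_LF1 := Pool.Agent.H21.FM.pf_LF1 hFLS hEZA a_TWS a_LIN a_LSU a_QZV
  have c_LF2 : T_LF2 := Pool.Agent.H61.FM.pf_LF2 c_LF1 hEZA hFLS a_QZV
  have c_EXL : T_EXL := Pool.Agent.H77.FM.pf_EXL a_RSX hEZA a_TWS a_QZV
  have c_LFK : T_LFK := Pool.Agent.H55.FM.pf_LFK c_LF2 a_MUL a_RSX hEZR a_TWS hFLS a_QZV
  have c_PVF : T_PVF := Pool.Agent.H61.FM.pf_PVF c_LF2 a_PVL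
  have c_TMF : T_TMF := Pool.Agent.H61.FM.pf_TMF hTM c_PVF a_HBD a_GML a_INE a_RSX
  have c_MOS : T_MOS := Pool.Agent.H32.FM.pf_MOS c_TMF a_MUL a_SQD a_SFS a_DVB
  have c_PBD : T_PBD := Pool.Agent.H75.FM.pf_PBD c_LFK a_KRB a_ABS a_GML a_SPT
  have c_TRB : T_TRB := Pool.Agent.H51.FM.pf_TRB c_PBD a_SPT
  have c_MOT : T_MOT := Pool.Agent.H83.FM.pf_MOT c_MOS a_SPT c_TRB a_HBD
  have c_FMS : T_FMS := Pool.Agent.H92.FM.pf_FMS c_MOT c_PBD a_SPT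
  have c_FM1 : T_FM1 := Pool.Agent.H79.FM.pf_FM1 a_SUP c_FMS c_TRB
  have c_FM2 : T_FM2 := Pool.Agent.H79.FM.pf_FM2 c_FM1
  have c_COR : T_COR := Pool.Agent.H77.FM.pf_COR c_FM2
  exact ⟨c_EXL, c_TMF, c_FM2, c_COR⟩

end Pool.Agent.H61.FM
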